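import Pool.Agent.L7h64.FB.L

/-! Project FB, part (H): S_L. -/

set_option autoImplicit false
set_option linter.unusedVariables false

open MeasureTheory Metric Set Filter Topology InnerProductGeometry
open scoped ENNReal

namespace Pool.Agent.L7h64.FB

open Pool.Agent.H241R3.FV (E Sph sig rot)
open Pool.Agent.L7h41.FB (norm_sph int_sq integrable_sig)

/-- the pointwise bound -/
theorem L_ptw {c s y γ : ℝ} (hs : 0 < s) (hcs : s ^ 2 + c ^ 2 = 1)
    (hq : 0 ≤ 2 * (83 / 100) * (17 / 100) * y * c * (γ - c * y) + (83 / 100) ^ 2 * y ^ 2 * s ^ 2 +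
      (17 / 100) ^ 2 * c ^ 2 * (c ^ 2 + γ ^ 2 - 2 * γ * c * y)) :
    s * ((√(c ^ 2 * ((83 / 100 * y ^ 2) ^ 2 + (17 / 100 * c * y) ^ 2 +
      2 * (83 / 100 * y ^ 2) * (17 / 100 * c * y) * γ -
        (83 / 100 * y ^ 2 * c + 17 / 100 * c * y * y) ^ 2) +
        (83 / 100 * y ^ 2 + 17 / 100 * c * y * γ -
          c * (83 / 100 * y ^ 2 * c + 17 / 100 * c * y * y)) ^ 2) -
        (83 / 100 * y ^ 2 + 17 / 100 * c * y * γ -
          c * (83 / 100 * y ^ 2 * c + 17 / 100 * c * y * y))) / c ^ 2) ≤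
      (-(83 / 100) * s / (1 + s) + s - 17 / 100) * y ^ 2 +
        17 / 100 * c * (1 / (1 + s) - 17 / 83) * γ * y + 289 / 16600 * c ^ 2 +
        289 / 16600 * γ ^ 2 := by
  have hs1 : 0 < 1 + s := by linarith
  rcases eq_or_ne c 0 with h0 | h0
  · subst h0
    have h1 : s = 1 := by nlinarith
    subst h1
    simp only [ne_eq, OfNat.ofNat_ne_zero, not_false_eq_true, zero_pow, div_zero, mul_zero]
    nlinarith [sq_nonneg y, sq_nonneg γ]
  · have hcp : 0 < c ^ 2 := by positivity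
    set Q : ℝ := 2 * (83 / 100) * (17 / 100) * y * c * (γ - c * y) + (83 / 100) ^ 2 * y ^ 2 * s ^ 2 +
      (17 / 100) ^ 2 * c ^ 2 * (c ^ 2 + γ ^ 2 - 2 * γ * c * y) with hQ
    have e1 : c ^ 2 * ((83 / 100 * y ^ 2) ^ 2 + (17 / 100 * c * y) ^ 2 +
      2 * (83 / 100 * y ^ 2) * (17 / 100 * c * y) * γ -
        (83 / 100 * y ^ 2 * c + 17 / 100 * c * y * y) ^ 2) +
        (83 / 100 * y ^ 2 + 17 / 100 * c * y * γ -
          c * (83 / 100 * y ^ 2 * c + 17 / 100 * c * y * y)) ^ 2 = y ^ 2 * Q := by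
      rw [hQ]
      linear_combination (-(6889 / 10000) * y ^ 4) * hcs
    rw [e1]
    have h2 : √(y ^ 2 * Q) ≤ ((83 / 100) ^ 2 * s ^ 2 * y ^ 2 + Q) / (2 * (83 / 100) * s) := by
      apply Real.sqrt_le_iff.2
      refine ⟨by positivity, ?_⟩
      rw [div_pow, le_div_iff₀ (by positivity)]
      nlinarith [sq_nonneg ((83 / 100) ^ 2 * s ^ 2 * y ^ 2 - Q)]
    set X : ℝ := √(y ^ 2 * Q) with hX
    rw [le_div_iff₀ (by positivity)] at h2
    rw [← mul_div_assoc, div_le_iff₀ hcp]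
    have e2 : ((-(83 / 100) * s / (1 + s) + s - 17 / 100) * y ^ 2 +
        17 / 100 * c * (1 / (1 + s) - 17 / 83) * γ * y + 289 / 16600 * c ^ 2 +
        289 / 16600 * γ ^ 2) * c ^ 2 =
        (-(83 / 100) * s * (1 - s) + (s - 17 / 100) * c ^ 2) * y ^ 2 +
        17 / 100 * c * ((1 - s) - 17 / 83 * c ^ 2) * γ * y + 289 / 16600 * c ^ 4 +
        289 / 16600 * γ ^ 2 * c ^ 2 := by
      have e3 : c ^ 2 = (1 - s) * (1 + s) := by linarith
      have e4 : c ^ 2 / (1 + s) = 1 - s := by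
        rw [e3]
        field_simp
      have e5 : ((-(83 / 100) * s / (1 + s) + s - 17 / 100) * y ^ 2 +
        17 / 100 * c * (1 / (1 + s) - 17 / 83) * γ * y + 289 / 16600 * c ^ 2 +
        289 / 16600 * γ ^ 2) * c ^ 2 = (-(83 / 100) * s * (c ^ 2 / (1 + s)) + (s - 17 / 100) * c ^ 2) * y ^ 2 +
        17 / 100 * c * ((c ^ 2 / (1 + s)) - 17 / 83 * c ^ 2) * γ * y + 289 / 16600 * c ^ 4 +
        289 / 16600 * γ ^ 2 * c ^ 2 := by
        field_simp
        ring
      rw [e5, e4]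
    rw [e2]
    have e6 : Q + (83 / 100) ^ 2 * s ^ 2 * y ^ 2 - 2 * (83 / 100) * s *
        (83 / 100 * y ^ 2 + 17 / 100 * c * y * γ -
          c * (83 / 100 * y ^ 2 * c + 17 / 100 * c * y * y)) =
        2 * (83 / 100) * ((-(83 / 100) * s * (1 - s) + (s - 17 / 100) * c ^ 2) * y ^ 2 +
        17 / 100 * c * ((1 - s) - 17 / 83 * c ^ 2) * γ * y + 289 / 16600 * c ^ 4 +
        289 / 16600 * γ ^ 2 * c ^ 2) := by
      rw [hQ]
      linear_combination 0 * hcs
    nlinarith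


/-- the integral over a circle of latitude -/
noncomputable def Phi (γ θ : ℝ) : ℝ :=
  2 * Real.pi * ((-(83 / 100) * Real.sin θ / (1 + Real.sin θ) + Real.sin θ - 17 / 100) *
      (γ * Real.cos θ) ^ 2 +
    17 / 100 * Real.cos θ * (1 / (1 + Real.sin θ) - 17 / 83) * γ * (γ * Real.cos θ) +
    289 / 16600 * Real.cos θ ^ 2 + 289 / 16600 * γ ^ 2) +
  Real.pi * ((-(83 / 100) * Real.sin θ / (1 + Real.sin θ) + Real.sin θ - 17 / 100) *
    Real.sin θ ^ 2) * (1 - γ ^ 2)

theorem Phi_cont (γ : ℝ) : ContinuousOn (Phi γ) (Icc 0 Real.pi) := by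
  unfold Phi
  have h0 : ∀ θ ∈ Icc 0 Real.pi, 1 + Real.sin θ ≠ 0 := by
    intro θ hθ
    have := Real.sin_nonneg_of_nonneg_of_le_pi hθ.1 hθ.2
    linarith
  have h1 : ContinuousOn (fun θ : ℝ => -(83 / 100) * Real.sin θ / (1 + Real.sin θ))
      (Icc 0 Real.pi) := ContinuousOn.div (by fun_prop) (by fun_prop) h0
  have h2 : ContinuousOn (fun θ : ℝ => 1 / (1 + Real.sin θ))
      (Icc 0 Real.pi) := ContinuousOn.div (by fun_prop) (by fun_prop) h0
  fun_prop

theorem Phi_int (γ : ℝ) (hγ : γ ^ 2 ≤ 1) :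
    ∫ θ in (0 : ℝ)..Real.pi, Phi γ θ ≤ 4 * Real.pi / 3 * (199 / 500) := by
  have hpi := Real.pi_pos
  have h1 : ∀ θ ∈ uIcc 0 Real.pi, HasDerivAt (fun θ : ℝ => 2 * Real.pi *
      (γ ^ 2 * (16889 / 16600 * ((θ - Real.sin θ * Real.cos θ) / 2) + Real.cos θ -
        Real.cos θ ^ 3 / 3) +
      (1 - γ ^ 2) * (-(8589 / 16600) * ((θ - Real.sin θ * Real.cos θ) / 2) -
        83 / 200 * Real.cos θ + (-(Real.cos θ) + Real.cos θ ^ 3 / 3) / 2 - 33 / 83 * θ -
        83 / 200 * (Real.cos θ / (1 + Real.sin θ))))) (Phi γ θ) θ := by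
    intro θ hθ
    rw [uIcc_of_le hpi.le] at hθ
    have hsn := Real.sin_nonneg_of_nonneg_of_le_pi hθ.1 hθ.2
    have h0 : 1 + Real.sin θ ≠ 0 := by linarith
    have hs := Real.hasDerivAt_sin θ
    have hc := Real.hasDerivAt_cos θ
    have hi := hasDerivAt_id' θ
    have hA := (hi.sub (hs.mul hc)).div_const 2
    have hB := ((((hA.const_mul (16889 / 16600)).add hc).sub ((hc.pow 3).div_const 3)).const_mul
      (γ ^ 2))
    have hC := ((((((hA.const_mul (-(8589 / 16600))).sub (hc.const_mul (83 / 200))).add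
      (((hc.neg).add ((hc.pow 3).div_const 3)).div_const 2)).sub (hi.const_mul (33 / 83))).sub
      ((hc.div (hs.const_add 1) h0).const_mul (83 / 200))).const_mul (1 - γ ^ 2))
    have h := (hB.add hC).const_mul (2 * Real.pi)
    refine (h.congr_deriv ?_)
    have h5 := Real.sin_sq_add_cos_sq θ
    have h6 : Real.cos θ ^ 2 = (1 - Real.sin θ) * (1 + Real.sin θ) := by linarith
    unfold Phi
    simp only [Nat.cast_ofNat, Nat.add_one_sub_one]
    set s := Real.sin θ
    set c := Real.cos θ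
    set t : ℝ := 1 / (1 + s) with ht
    have ht1 : (1 + s) * t = 1 := by rw [ht]; field_simp
    have ht2 : c ^ 2 * t = 1 - s := by rw [h6]; linear_combination (1 - s) * ht1
    have ht3 : s ^ 2 * t = t - 1 + s := by linear_combination (s - 1) * ht1
    have ht4 : -(83 / 100) * s / (1 + s) = -(83 / 100) * (1 - t) := by
      have : s / (1 + s) = s * t := by rw [ht]; ring
      rw [mul_div_assoc, this]
      linear_combination (-(83 / 100)) * ht1
    have ht5 : (-s * (1 + s) - c * c) / (1 + s) ^ 2 = -t := by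
      rw [ht]
      field_simp
      linarith
    have hc2 : c ^ 2 = 1 - s ^ 2 := by linarith
    rw [ht4, ht5]
    linear_combination (2 * Real.pi) * (-γ ^ 2 * ht2 - 83 / 200 * (1 - γ ^ 2) * ht3 +
      (γ ^ 2 * (-(16889 / 16600) / 2 + s) + (1 - γ ^ 2) * (8589 / 16600 / 2 - s / 2) -
        (s - 1) * γ ^ 2 + 289 / 8300 * γ ^ 2 - 289 / 16600) * hc2)
  rw [intervalIntegral.integral_eq_sub_of_hasDerivAt h1
    (by rw [intervalIntegrable_iff_integrableOn_Icc_of_le hpi.le]; exact (Phi_cont γ).integrableOn_Icc)]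
  simp only [Real.sin_pi, Real.cos_pi, Real.sin_zero, Real.cos_zero]
  have hp1 := Real.pi_lt_d4
  have hp2 := Real.pi_gt_d4
  have hJe : 16889 / 16600 * Real.pi / 2 - 4 / 3 ≤ 2 / 3 * (199 / 500) := by linarith
  have hJw : (-(8589 / 16600) / 2 - 33 / 83) * Real.pi + 166 / 100 + 2 / 3 ≤
      2 / 3 * (199 / 500) := by linarith
  have h2 : γ ^ 2 * (16889 / 16600 * Real.pi / 2 - 4 / 3) + (1 - γ ^ 2) *
      ((-(8589 / 16600) / 2 - 33 / 83) * Real.pi + 166 / 100 + 2 / 3) ≤ 2 / 3 * (199 / 500) := by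
    nlinarith [mul_le_mul_of_nonneg_left hJe (sq_nonneg γ),
      mul_le_mul_of_nonneg_left hJw (sub_nonneg.2 hγ)]
  have h3 := mul_le_mul_of_nonneg_left h2 (show 0 ≤ 2 * Real.pi by positivity)
  refine le_trans (le_of_eq ?_) (h3.trans (le_of_eq ?_))
  · ring
  · ring

theorem gram_nonneg {e v u : E 3} (he : ‖e‖ = 1) (hv : ‖v‖ = 1) (hu : ‖u‖ = 1) (α β : ℝ) :
    0 ≤ α ^ 2 + β ^ 2 + 2 * α * β * (inner ℝ e v : ℝ) -
      (α * (inner ℝ e u : ℝ) + β * (inner ℝ v u : ℝ)) ^ 2 := by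
  have h1 : (inner ℝ u (α • e + β • v) : ℝ) = α * (inner ℝ e u : ℝ) + β * (inner ℝ v u : ℝ) := by
    rw [inner_add_right, real_inner_smul_right, real_inner_smul_right, real_inner_comm u e,
      real_inner_comm u v]
  have h2 : ‖α • e + β • v‖ ^ 2 = α ^ 2 + β ^ 2 + 2 * α * β * (inner ℝ e v : ℝ) := by
    rw [norm_add_sq_real, real_inner_smul_right,
      real_inner_smul_left, norm_smul, norm_smul, mul_pow, mul_pow, he, hv, Real.norm_eq_abs,
      Real.norm_eq_abs, sq_abs, sq_abs]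
    ring
  have h3 := abs_real_inner_le_norm u (α • e + β • v)
  rw [hu, one_mul] at h3
  have h4 := pow_le_pow_left₀ (abs_nonneg _) h3 2
  rw [sq_abs, h1, h2] at h4
  linarith

/-- [FB-L] -/
theorem s_L : S_L := by
  intro e v he hv
  have hpi := Real.pi_pos
  have hV : Continuous (fun u : E 3 => qf ((83 / 100 : ℝ) • v) v 0 u • e +
      qf ((17 / 100 : ℝ) • e) v 0 u • v) := by
    unfold qf
    fun_prop
  apply fin_of hV (by positivity)
  obtain ⟨b, hb⟩ := exists_basis e he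
  have hm : Measurable (fun u : E 3 => ENNReal.ofReal (N1 e u (qf ((83 / 100 : ℝ) • v) v 0 u • e +
      qf ((17 / 100 : ℝ) • e) v 0 u • v))) := by
    apply Measurable.ennreal_ofReal
    unfold N1 tg qf
    apply Measurable.div
    · apply Continuous.measurable
      fun_prop
    · apply Continuous.measurable
      fun_prop
  rw [lint_coord b _ hm]
  set γ : ℝ := inner ℝ e v with hγ
  set p : ℝ := inner ℝ v (b 0) with hp
  set q : ℝ := inner ℝ v (b 1) with hq
  have hpq : p ^ 2 + q ^ 2 = 1 - γ ^ 2 := by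
    have h1 := b.sum_sq_inner_left v
    rw [Fin.sum_univ_three, hv, hb] at h1
    rw [hγ, real_inner_comm v e]
    linarith
  have hγ1 : γ ^ 2 ≤ 1 := by nlinarith [sq_nonneg p, sq_nonneg q]
  have hb0 : ‖b 0‖ = 1 := b.norm_eq_one 0
  have hb1 : ‖b 1‖ = 1 := b.norm_eq_one 1
  have h01 : (inner ℝ (b 0) (b 1) : ℝ) = 0 := b.inner_eq_zero (by decide)
  have h02 : (inner ℝ (b 0) e : ℝ) = 0 := by rw [← hb]; exact b.inner_eq_zero (by decide)
  have h12 : (inner ℝ (b 1) e : ℝ) = 0 := by rw [← hb]; exact b.inner_eq_zero (by decide)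
  -- the pointwise bound
  have key : ∀ θ ∈ Ioo 0 Real.pi, ∀ ϕ : ℝ,
      0 ≤ Real.sin θ * N1 e ((Real.sin θ * Real.cos ϕ) • b 0 +
          (Real.sin θ * Real.sin ϕ) • b 1 + Real.cos θ • b 2)
        (qf ((83 / 100 : ℝ) • v) v 0 ((Real.sin θ * Real.cos ϕ) • b 0 +
          (Real.sin θ * Real.sin ϕ) • b 1 + Real.cos θ • b 2) • e +
      qf ((17 / 100 : ℝ) • e) v 0 ((Real.sin θ * Real.cos ϕ) • b 0 +
          (Real.sin θ * Real.sin ϕ) • b 1 + Real.cos θ • b 2) • v) ∧
      Real.sin θ * N1 e ((Real.sin θ * Real.cos ϕ) • b 0 +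
          (Real.sin θ * Real.sin ϕ) • b 1 + Real.cos θ • b 2)
        (qf ((83 / 100 : ℝ) • v) v 0 ((Real.sin θ * Real.cos ϕ) • b 0 +
          (Real.sin θ * Real.sin ϕ) • b 1 + Real.cos θ • b 2) • e +
      qf ((17 / 100 : ℝ) • e) v 0 ((Real.sin θ * Real.cos ϕ) • b 0 +
          (Real.sin θ * Real.sin ϕ) • b 1 + Real.cos θ • b 2) • v) ≤
      ((-(83 / 100) * Real.sin θ / (1 + Real.sin θ) + Real.sin θ - 17 / 100) *
        (γ * Real.cos θ) ^ 2 +
      17 / 100 * Real.cos θ * (1 / (1 + Real.sin θ) - 17 / 83) * γ * (γ * Real.cos θ) +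
      289 / 16600 * Real.cos θ ^ 2 + 289 / 16600 * γ ^ 2) +
      (2 * (-(83 / 100) * Real.sin θ / (1 + Real.sin θ) + Real.sin θ - 17 / 100) *
        (γ * Real.cos θ) * Real.sin θ + 17 / 100 * Real.cos θ * (1 / (1 + Real.sin θ) - 17 / 83) * γ *
        Real.sin θ) * (p * Real.cos ϕ + q * Real.sin ϕ) +
      ((-(83 / 100) * Real.sin θ / (1 + Real.sin θ) + Real.sin θ - 17 / 100) *
        Real.sin θ ^ 2) * (p * Real.cos ϕ + q * Real.sin ϕ) ^ 2 := by
    intro θ hθ ϕ
    have hs : 0 < Real.sin θ := Real.sin_pos_of_pos_of_lt_pi hθ.1 hθ.2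
    set u : E 3 := (Real.sin θ * Real.cos ϕ) • b 0 +
          (Real.sin θ * Real.sin ϕ) • b 1 + Real.cos θ • b 2 with hu
    have hcs := Real.sin_sq_add_cos_sq θ
    have hcs2 := Real.sin_sq_add_cos_sq ϕ
    have hc : (inner ℝ e u : ℝ) = Real.cos θ := by
      rw [hu, inner_add_right, inner_add_right, real_inner_smul_right, real_inner_smul_right,
        real_inner_smul_right, hb, real_inner_comm (b 0) e, real_inner_comm (b 1) e, h02, h12,
        real_inner_self_eq_norm_sq, he]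
      ring
    have hy : (inner ℝ v u : ℝ) = γ * Real.cos θ + Real.sin θ * (p * Real.cos ϕ + q * Real.sin ϕ) := by
      rw [hu, inner_add_right, inner_add_right, real_inner_smul_right, real_inner_smul_right,
        real_inner_smul_right, hb, hp, hq, hγ, real_inner_comm e v]
      ring
    have hn : ‖u‖ = 1 := by
      have h1 : ‖u‖ ^ 2 = 1 := by
        have ew : ∀ w : E 3, (inner ℝ u w : ℝ) = Real.sin θ * Real.cos ϕ * (inner ℝ (b 0) w : ℝ) +
            Real.sin θ * Real.sin ϕ * (inner ℝ (b 1) w : ℝ) + Real.cos θ * (inner ℝ e w : ℝ) := by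
          intro w
          rw [hu, inner_add_left, inner_add_left, real_inner_smul_left, real_inner_smul_left,
            real_inner_smul_left, hb]
        have e0 : (inner ℝ (b 0) u : ℝ) = Real.sin θ * Real.cos ϕ := by
          rw [hu, inner_add_right, inner_add_right, real_inner_smul_right, real_inner_smul_right,
            real_inner_smul_right, hb, h01, h02, real_inner_self_eq_norm_sq, hb0]
          ring
        have e1 : (inner ℝ (b 1) u : ℝ) = Real.sin θ * Real.sin ϕ := by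
          rw [hu, inner_add_right, inner_add_right, real_inner_smul_right, real_inner_smul_right,
            real_inner_smul_right, hb, real_inner_comm (b 0) (b 1), h01, h12,
            real_inner_self_eq_norm_sq, hb1]
          ring
        rw [← real_inner_self_eq_norm_sq, ew u, e0, e1, hc]
        linear_combination hcs + Real.sin θ ^ 2 * hcs2
      have h2 := norm_nonneg u
      nlinarith
    refine ⟨mul_nonneg hs.le (N1_nonneg _ _ _), ?_⟩
    have e1 : qf ((83 / 100 : ℝ) • v) v 0 u • e + qf ((17 / 100 : ℝ) • e) v 0 u • v =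
        (83 / 100 * (inner ℝ v u : ℝ) ^ 2) • e +
          (17 / 100 * (inner ℝ e u : ℝ) * (inner ℝ v u : ℝ)) • v := by
      simp only [qf, real_inner_smul_left, zero_mul, add_zero]
      congr 2
      ring
    rw [e1, N1_form he hv hn]
    have hQ := gram_nonneg he hv hn (83 / 100 * (inner ℝ v u : ℝ)) (17 / 100 * (inner ℝ e u : ℝ))
    have h5 := L_ptw (c := Real.cos θ) (s := Real.sin θ) (y := (inner ℝ v u : ℝ)) (γ := γ) hs hcs ?_
    · rw [hc]
      refine h5.trans (le_of_eq ?_)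
      rw [hy]
      ring
    · rw [hc] at hQ
      set c := Real.cos θ
      set s := Real.sin θ
      set y : ℝ := inner ℝ v u
      have h6 := mul_nonneg (sq_nonneg c) hQ
      have h7 := sq_nonneg (83 / 100 * y + 17 / 100 * c * γ - c * (83 / 100 * y * c + 17 / 100 * c * y))
      have hc2 : c ^ 2 = 1 - s ^ 2 := by linarith
      refine le_trans (add_nonneg h6 h7) (le_of_eq ?_)
      linear_combination (-(6889 / 10000) * y ^ 2) * hcs
  have step : ∀ θ ∈ Ioo 0 Real.pi, 0 ≤ Phi γ θ ∧ ∫⁻ ϕ in Ioo (-Real.pi) Real.pi,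
        ENNReal.ofReal (Real.sin θ) * ENNReal.ofReal (N1 e ((Real.sin θ * Real.cos ϕ) • b 0 +
          (Real.sin θ * Real.sin ϕ) • b 1 + Real.cos θ • b 2)
        (qf ((83 / 100 : ℝ) • v) v 0 ((Real.sin θ * Real.cos ϕ) • b 0 +
          (Real.sin θ * Real.sin ϕ) • b 1 + Real.cos θ • b 2) • e +
      qf ((17 / 100 : ℝ) • e) v 0 ((Real.sin θ * Real.cos ϕ) • b 0 +
          (Real.sin θ * Real.sin ϕ) • b 1 + Real.cos θ • b 2) • v)) ≤
        ENNReal.ofReal (Phi γ θ) := by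
    intro θ hθ
    have hs : 0 < Real.sin θ := Real.sin_pos_of_pos_of_lt_pi hθ.1 hθ.2
    have h1 := phi_int ((-(83 / 100) * Real.sin θ / (1 + Real.sin θ) + Real.sin θ - 17 / 100) *
        (γ * Real.cos θ) ^ 2 +
      17 / 100 * Real.cos θ * (1 / (1 + Real.sin θ) - 17 / 83) * γ * (γ * Real.cos θ) +
      289 / 16600 * Real.cos θ ^ 2 + 289 / 16600 * γ ^ 2)
      (2 * (-(83 / 100) * Real.sin θ / (1 + Real.sin θ) + Real.sin θ - 17 / 100) *
        (γ * Real.cos θ) * Real.sin θ + 17 / 100 * Real.cos θ * (1 / (1 + Real.sin θ) - 17 / 83) * γ *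
        Real.sin θ) ((-(83 / 100) * Real.sin θ / (1 + Real.sin θ) + Real.sin θ - 17 / 100) *
        Real.sin θ ^ 2) p q
    have h2 : 2 * Real.pi * ((-(83 / 100) * Real.sin θ / (1 + Real.sin θ) + Real.sin θ - 17 / 100) *
        (γ * Real.cos θ) ^ 2 +
      17 / 100 * Real.cos θ * (1 / (1 + Real.sin θ) - 17 / 83) * γ * (γ * Real.cos θ) +
      289 / 16600 * Real.cos θ ^ 2 + 289 / 16600 * γ ^ 2) + Real.pi *
      ((-(83 / 100) * Real.sin θ / (1 + Real.sin θ) + Real.sin θ - 17 / 100) *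
        Real.sin θ ^ 2) * (p ^ 2 + q ^ 2) = Phi γ θ := by
      rw [hpq]
      rfl
    rw [h2] at h1
    have h3 := lint_eq (a := -Real.pi) (b := Real.pi) (by linarith) (f := fun ϕ =>
      ((-(83 / 100) * Real.sin θ / (1 + Real.sin θ) + Real.sin θ - 17 / 100) *
        (γ * Real.cos θ) ^ 2 +
      17 / 100 * Real.cos θ * (1 / (1 + Real.sin θ) - 17 / 83) * γ * (γ * Real.cos θ) +
      289 / 16600 * Real.cos θ ^ 2 + 289 / 16600 * γ ^ 2) +
      (2 * (-(83 / 100) * Real.sin θ / (1 + Real.sin θ) + Real.sin θ - 17 / 100) *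
        (γ * Real.cos θ) * Real.sin θ + 17 / 100 * Real.cos θ * (1 / (1 + Real.sin θ) - 17 / 83) * γ *
        Real.sin θ) * (p * Real.cos ϕ + q * Real.sin ϕ) +
      ((-(83 / 100) * Real.sin θ / (1 + Real.sin θ) + Real.sin θ - 17 / 100) *
        Real.sin θ ^ 2) * (p * Real.cos ϕ + q * Real.sin ϕ) ^ 2)
      (Continuous.continuousOn (by fun_prop))
      (fun ϕ _ => (key θ hθ ϕ).1.trans (key θ hθ ϕ).2)
    rw [h1] at h3
    constructor
    · rw [← h1]
      apply intervalIntegral.integral_nonneg (by linarith)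
      intro ϕ _
      exact (key θ hθ ϕ).1.trans (key θ hθ ϕ).2
    · rw [← h3]
      apply lintegral_mono
      intro ϕ
      simp only
      rw [← ENNReal.ofReal_mul hs.le]
      exact ENNReal.ofReal_le_ofReal (key θ hθ ϕ).2
  refine (setLIntegral_mono' measurableSet_Ioo (fun θ hθ => (step θ hθ).2)).trans ?_
  rw [lint_eq hpi.le (Phi_cont γ) (fun θ hθ => (step θ hθ).1)]
  exact ENNReal.ofReal_le_ofReal (Phi_int γ hγ1)

end Pool.Agent.L7h64.FB
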