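import Pool.Agent.L7h77.FB.Fin
import Pool.Agent.L7h29.FB.Div
import Pool.Agent.L7h41.FB.Qf
import Pool.Agent.L7h21.FB.Fr
import Pool.Agent.L7h21.FB.Det
import Pool.Agent.L7h97.FB.K
import Pool.Agent.L7h64.FB.L2

/-! Project FB: assembly. -/

set_option autoImplicit false

namespace Pool.Agent.L7h64.FB

theorem main_of (hU : S_U) : S_MAIN :=
  have hQF : S_QF := Pool.Agent.L7h41.FB.s_QF Pool.Agent.L7h29.FB.s_DIV hU s_L s_L0
  have hFR : S_FR := Pool.Agent.L7h21.FB.s_FR s_CH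
  have hDET : S_DET := Pool.Agent.L7h21.FB.s_DET hFR hQF Pool.Agent.L7h21.FB.s_LA
  Pool.Agent.L7h77.FB.s_MAIN (Pool.Agent.L7h97.FB.s_XS hDET) Pool.Agent.L7h97.FB.s_RAD

end Pool.Agent.L7h64.FB
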