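import Pool.Agent.L7h64.FB.Stm
import Pool.Agent.N526.CP.CHV

/-! Project FB: the change of variables on the sphere. -/

set_option autoImplicit false
set_option linter.unusedVariables false

open MeasureTheory Metric Set Filter Topology InnerProductGeometry

namespace Pool.Agent.L7h64.FB

open Pool.Agent.H241R3.FV (E Sph sig ext gnorm act mat RChart Fill norm_sph)

theorem h_pos {r : ℝ} (h0 : 0 ≤ r) (h1 : r < 1) : 0 < √(1 - r ^ 2) :=
  Real.sqrt_pos.2 (by nlinarith)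

theorem h_sq {r : ℝ} (h0 : 0 ≤ r) (h1 : r < 1) : √(1 - r ^ 2) ^ 2 = 1 - r ^ 2 :=
  Real.sq_sqrt (by nlinarith)

theorem h_le {r : ℝ} (h0 : 0 ≤ r) (h1 : r < 1) : √(1 - r ^ 2) ≤ 1 := by
  rw [Real.sqrt_le_left one_pos.le]
  nlinarith

theorem inner_Gi {e : E 3} (he : ‖e‖ = 1) (r : ℝ) (z : E 3) :
    (inner ℝ e (Gi e r z) : ℝ) = inner ℝ e z / √(1 - r ^ 2) := by
  rw [Gi, inner_add_right, inner_smul_right, real_inner_self_eq_norm_sq, he]
  ring

/-- `|Γ⁻¹z|² = |z|² + (1/h² - 1) ⟨e,z⟩²` -/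
theorem norm_Gi {e : E 3} (he : ‖e‖ = 1) (r : ℝ) (z : E 3) :
    ‖Gi e r z‖ ^ 2 = ‖z‖ ^ 2 + (1 / √(1 - r ^ 2) ^ 2 - 1) * (inner ℝ e z : ℝ) ^ 2 := by
  rw [Gi, norm_add_sq_real, norm_smul, he, inner_smul_right, real_inner_comm, mul_one,
    Real.norm_eq_abs, sq_abs]
  ring

theorem Gi_symm (e : E 3) (r : ℝ) (z w : E 3) :
    (inner ℝ (Gi e r z) w : ℝ) = inner ℝ z (Gi e r w) := by
  rw [Gi, Gi, inner_add_left, inner_add_right, inner_smul_left, inner_smul_right,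
    real_inner_comm e z]
  simp
  ring

/-- `Γ⁻¹` as a continuous linear equivalence -/
noncomputable def GE (e : E 3) (he : ‖e‖ = 1) (r : ℝ) (h : 0 < √(1 - r ^ 2)) : E 3 ≃L[ℝ] E 3 :=
  LinearEquiv.toContinuousLinearEquiv
    { toFun := Gi e r
      map_add' := fun x y => by simp only [Gi, inner_add_right]; module
      map_smul' := fun c x => by simp only [Gi, inner_smul_right, RingHom.id_apply]; module
      invFun := fun z => z + ((√(1 - r ^ 2) - 1) * (inner ℝ e z : ℝ)) • e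
      left_inv := fun z => by
        simp only [inner_Gi he]
        rw [Gi, add_assoc, ← add_smul]
        have : (1 / √(1 - r ^ 2) - 1) * (inner ℝ e z : ℝ) +
            (√(1 - r ^ 2) - 1) * (inner ℝ e z / √(1 - r ^ 2)) = 0 := by
          field_simp
          ring
        rw [this, zero_smul, add_zero]
      right_inv := fun z => by
        simp only [Gi]
        rw [inner_add_right, inner_smul_right, real_inner_self_eq_norm_sq, he, add_assoc,
          ← add_smul]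
        have : (√(1 - r ^ 2) - 1) * (inner ℝ e z : ℝ) + (1 / √(1 - r ^ 2) - 1) *
            ((inner ℝ e z : ℝ) + (√(1 - r ^ 2) - 1) * (inner ℝ e z : ℝ) * 1 ^ 2) = 0 := by
          field_simp
          ring
        rw [this, zero_smul, add_zero] }

theorem GE_apply (e : E 3) (he : ‖e‖ = 1) (r : ℝ) (h : 0 < √(1 - r ^ 2)) (z : E 3) :
    GE e he r h z = Gi e r z := rfl

/-- matrix determinant lemma -/
theorem det_GE (e : E 3) (he : ‖e‖ = 1) (r : ℝ) (h : 0 < √(1 - r ^ 2)) :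
    (GE e he r h : E 3 →L[ℝ] E 3).det = 1 / √(1 - r ^ 2) := by
  show LinearMap.det ((GE e he r h : E 3 →L[ℝ] E 3) : E 3 →ₗ[ℝ] E 3) = _
  rw [← LinearMap.det_toMatrix (EuclideanSpace.basisFun (Fin 3) ℝ).toBasis, Matrix.det_fin_three]
  have hn : e 0 ^ 2 + e 1 ^ 2 + e 2 ^ 2 = 1 := by
    have h1 := EuclideanSpace.norm_sq_eq e
    rw [he, Fin.sum_univ_three] at h1
    simpa using h1.symm
  have hm : ∀ i j : Fin 3, (LinearMap.toMatrix (EuclideanSpace.basisFun (Fin 3) ℝ).toBasis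
      (EuclideanSpace.basisFun (Fin 3) ℝ).toBasis
      ((GE e he r h : E 3 →L[ℝ] E 3) : E 3 →ₗ[ℝ] E 3)) i j =
      (if i = j then 1 else 0) + (1 / √(1 - r ^ 2) - 1) * e j * e i := by
    intro i j
    rw [LinearMap.toMatrix_apply]
    simp [GE_apply, Gi, EuclideanSpace.inner_single_right]
  simp only [hm]
  set k := 1 / √(1 - r ^ 2) with hk
  simp
  linear_combination (k - 1) * hn

theorem pt_cont {z : E 3} (hz : z ≠ 0) : ContinuousAt (fun z : E 3 => pt z) z := by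
  rw [Topology.IsInducing.subtypeVal.continuousAt_iff]
  have h1 : ContinuousAt (fun z : E 3 => ‖z‖⁻¹ • z) z :=
    (continuous_norm.continuousAt.inv₀ (norm_ne_zero_iff.2 hz)).smul continuousAt_id
  refine h1.congr ?_
  filter_upwards [isOpen_ne.mem_nhds hz] with y hy
  simp only [Function.comp]
  rw [pt, dif_pos hy]

theorem s_CH : S_CH := by
  intro e he r h0 h1 G hG
  have hp := h_pos h0 h1
  -- extension of `G`
  set f : E 3 → ℝ := fun z => ‖z‖ * G (pt z) with hf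
  have hpt : ∀ z : E 3, z ≠ 0 → ((pt z : Sph 3) : E 3) = ‖z‖⁻¹ • z := by
    intro z hz
    rw [pt, dif_pos hz]
  have hfc : Continuous f := by
    rw [continuous_iff_continuousAt]
    intro z
    by_cases hz : z = 0
    · subst hz
      obtain ⟨M, hM⟩ := (isCompact_univ : IsCompact (univ : Set (Sph 3))).exists_bound_of_continuousOn
        hG.continuousOn
      have h2 : Tendsto (fun z : E 3 => ‖z‖ * M) (𝓝 0) (𝓝 0) := by
        have : Continuous fun z : E 3 => ‖z‖ * M := by fun_prop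
        simpa using this.tendsto 0
      have h3 : f 0 = 0 := by simp [hf]
      rw [ContinuousAt, h3]
      refine squeeze_zero_norm (fun z => ?_) h2
      rw [hf]
      simp only [norm_mul, norm_norm]
      exact mul_le_mul_of_nonneg_left (hM _ (mem_univ _)) (norm_nonneg _)
    · exact continuous_norm.continuousAt.mul (hG.continuousAt.comp (pt_cont hz))
  have key := Pool.Agent.N526.CP.CHV.main_sig (n := 3) (by norm_num) (GE e he r hp) f hfc
  have hθ : ∀ θ : Sph 3, (θ : E 3) ≠ 0 := by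
    intro θ h
    have := norm_sph θ
    rw [h, norm_zero] at this
    exact zero_ne_one this
  have e1 : ∀ θ : Sph 3, f θ = G θ := by
    intro θ
    simp only [hf]
    rw [norm_sph, one_mul]
    congr 1
    apply Subtype.ext
    rw [hpt _ (hθ θ), norm_sph, inv_one, one_smul]
  have e2 : ∀ u : Sph 3, f (‖GE e he r hp u‖⁻¹ • GE e he r hp u) = G (pt (Gi e r (u : E 3))) := by
    intro u
    have h2 : GE e he r hp (u : E 3) ≠ 0 :=
      (map_ne_zero_iff _ (GE e he r hp).injective).2 (hθ u)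
    have h3 : ‖(‖GE e he r hp (u : E 3)‖⁻¹ • GE e he r hp (u : E 3))‖ = 1 := by
      rw [norm_smul, norm_inv, norm_norm, inv_mul_cancel₀ (norm_ne_zero_iff.2 h2)]
    simp only [hf]
    rw [h3, one_mul]
    congr 1
    apply Subtype.ext
    have h4 : ‖GE e he r hp (u : E 3)‖⁻¹ • GE e he r hp (u : E 3) ≠ 0 := by
      rw [← norm_ne_zero_iff, h3]
      exact one_ne_zero
    rw [hpt _ h4, h3, inv_one, one_smul]
    rw [← GE_apply e he r hp, hpt _ h2]
  rw [integral_congr_ae (Filter.Eventually.of_forall e1)] at key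
  rw [← key, det_GE, abs_of_pos (by positivity), ← integral_const_mul]
  refine integral_congr_ae (Filter.Eventually.of_forall fun u => ?_)
  simp only
  rw [e2]
  have h2 : GE e he r hp (u : E 3) ≠ 0 :=
    (map_ne_zero_iff _ (GE e he r hp).injective).2 (hθ u)
  have h5 : ‖Gi e r (u : E 3)‖ ≠ 0 := norm_ne_zero_iff.2 h2
  rw [GE_apply]
  field_simp

/-- for unit vectors: `|Γ⁻¹u| = √(1 + τ² ⟨e,u⟩²)`, `DD (r e) (th u) = 1/|Γ⁻¹u|` -/
theorem norm_Gi_sph {e : E 3} (he : ‖e‖ = 1) {r : ℝ} (h0 : 0 ≤ r) (h1 : r < 1) (u : Sph 3) :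
    ‖Gi e r (u : E 3)‖ ^ 2 = 1 + (r / √(1 - r ^ 2)) ^ 2 * (inner ℝ e (u : E 3) : ℝ) ^ 2 := by
  have hp := h_pos h0 h1
  have hs := h_sq h0 h1
  rw [norm_Gi he, norm_sph, div_pow, hs]
  have : (1 - r ^ 2) ≠ 0 := by nlinarith
  field_simp
  ring

theorem Gi_ne {e : E 3} (he : ‖e‖ = 1) {r : ℝ} (h0 : 0 ≤ r) (h1 : r < 1) (u : Sph 3) :
    Gi e r (u : E 3) ≠ 0 := by
  have h := norm_Gi_sph he h0 h1 u
  intro h2
  rw [h2, norm_zero] at h
  have := sq_nonneg (r / √(1 - r ^ 2) * (inner ℝ e (u : E 3) : ℝ))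
  nlinarith

theorem pt_coe {z : E 3} (hz : z ≠ 0) : ((pt z : Sph 3) : E 3) = ‖z‖⁻¹ • z := by
  rw [pt, dif_pos hz]

theorem DD_th {e : E 3} (he : ‖e‖ = 1) {r : ℝ} (h0 : 0 ≤ r) (h1 : r < 1) (u : Sph 3) :
    DD (r • e) (pt (Gi e r (u : E 3)) : E 3) = ‖Gi e r (u : E 3)‖⁻¹ := by
  have hp := h_pos h0 h1
  have hs := h_sq h0 h1
  have hn := norm_Gi_sph he h0 h1 u
  have hne := norm_ne_zero_iff.2 (Gi_ne he h0 h1 u)
  have hpos : 0 < ‖Gi e r (u : E 3)‖ := norm_pos_iff.2 (Gi_ne he h0 h1 u)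
  rw [DD, pt_coe (Gi_ne he h0 h1 u), inner_smul_left, inner_smul_right, inner_Gi he]
  have h3 : ‖Gi e r (u : E 3)‖ ^ 2 ≠ 0 := pow_ne_zero _ hne
  have h4 : (1 - r ^ 2) ≠ 0 := by nlinarith
  rw [div_pow, hs] at hn
  have key : 1 - ((starRingEnd ℝ) r * (‖Gi e r (u : E 3)‖⁻¹ *
      ((inner ℝ e (u : E 3) : ℝ) / √(1 - r ^ 2)))) ^ 2 = (‖Gi e r (u : E 3)‖⁻¹) ^ 2 := by
    simp only [conj_trivial, mul_pow, inv_pow, div_pow, hs]
    field_simp
    field_simp at hn
    linarith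
  rw [key, Real.sqrt_sq (inv_pos.2 hpos).le]

/-- `∫ DD⁻³ dθ = 4π/h` -/
theorem int_DD3 {x : E 3} (hx : ‖x‖ < 1) :
    √(1 - ‖x‖ ^ 2) * ∫ θ : Sph 3, (DD x (θ : E 3) ^ 3)⁻¹ ∂(sig 3) = 4 * Real.pi := by
  obtain ⟨e, he, hxe⟩ : ∃ e : E 3, ‖e‖ = 1 ∧ x = ‖x‖ • e := by
    by_cases hx0 : x = 0
    · exact ⟨EuclideanSpace.single 0 1, by simp, by simp [hx0]⟩
    · exact ⟨‖x‖⁻¹ • x, by rw [norm_smul, norm_inv, norm_norm,
        inv_mul_cancel₀ (norm_ne_zero_iff.2 hx0)], by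
        rw [smul_smul, mul_inv_cancel₀ (norm_ne_zero_iff.2 hx0), one_smul]⟩
  have h0 := norm_nonneg x
  set r := ‖x‖ with hr
  have hD : ∀ θ : Sph 3, 0 < DD x (θ : E 3) := by
    intro θ
    apply Real.sqrt_pos.2
    have h2 := abs_real_inner_le_norm x (θ : E 3)
    rw [norm_sph, mul_one, ← hr] at h2
    have h3 := abs_nonneg (inner ℝ x (θ : E 3) : ℝ)
    rw [← sq_abs]
    nlinarith
  have hc : Continuous fun θ : Sph 3 => (DD x (θ : E 3) ^ 3)⁻¹ := by
    refine Continuous.inv₀ ?_ fun θ => (pow_pos (hD θ) 3).ne'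
    unfold DD
    fun_prop
  rw [s_CH e he r h0 hx _ hc, ← integral_const_mul]
  have hp := h_pos h0 hx
  have e2 : ∀ u : Sph 3, √(1 - r ^ 2) * ((DD x (pt (Gi e r (u : E 3)) : E 3) ^ 3)⁻¹ /
      (√(1 - r ^ 2) * ‖Gi e r (u : E 3)‖ ^ 3)) = 1 := by
    intro u
    have h5 := norm_ne_zero_iff.2 (Gi_ne he h0 hx u)
    rw [hxe, DD_th he h0 hx]
    field_simp
  rw [integral_congr_ae (Filter.Eventually.of_forall e2)]
  simp only [integral_const, smul_eq_mul, mul_one]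
  rw [Measure.real, sig, Measure.toSphere_apply_univ]
  simp [EuclideanSpace.volume_ball_fin_three, ENNReal.toReal_mul]
  rw [ENNReal.toReal_ofReal (by positivity)]
  ring

end Pool.Agent.L7h64.FB
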