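import Pool.Agent.L7h41.FB.Base
import Pool.Agent.Helper88.FB.P_sph_coord

/-! Project FB, parts (H): S_L0, S_L. -/

set_option autoImplicit false
set_option linter.unusedVariables false

open MeasureTheory Metric Set Filter Topology InnerProductGeometry
open scoped ENNReal

namespace Pool.Agent.L7h64.FB

open Pool.Agent.H241R3.FV (E Sph sig rot)
open Pool.Agent.L7h41.FB (norm_sph int_sq integrable_sig)

/-- an orthonormal basis with last vector `e` -/
theorem exists_basis (e : E 3) (he : ‖e‖ = 1) : ∃ b : OrthonormalBasis (Fin 3) ℝ (E 3), b 2 = e := by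
  have h1 : Orthonormal ℝ (({2} : Set (Fin 3)).domRestrict (fun _ => e)) := by
    constructor
    · intro i
      exact he
    · intro i j hij
      exact absurd (Subsingleton.elim i j) hij
  obtain ⟨b, hb⟩ := h1.exists_orthonormalBasis_extension_of_card_eq (by simp)
  exact ⟨b, hb 2 rfl⟩

/-- integration over the sphere in spherical coordinates about `b 2` -/
theorem lint_coord (b : OrthonormalBasis (Fin 3) ℝ (E 3)) (h : E 3 → ℝ≥0∞) (hh : Measurable h) :
    ∫⁻ u : Sph 3, h (u : E 3) ∂(sig 3) =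
      ∫⁻ θ in Ioo 0 Real.pi, ∫⁻ ϕ in Ioo (-Real.pi) Real.pi,
        ENNReal.ofReal (Real.sin θ) * h ((Real.sin θ * Real.cos ϕ) • b 0 +
          (Real.sin θ * Real.sin ϕ) • b 1 + Real.cos θ • b 2) := by
  set R : E 3 ≃ₗᵢ[ℝ] E 3 := b.repr.symm with hR
  have h1 := (Pool.Agent.H241R3.FV.TInv.taskInv 3 (by norm_num) R).lintegral_comp
    (f := fun u : Sph 3 => h (u : E 3)) (hh.comp measurable_subtype_coe)
  rw [← h1]
  have h2 := Pool.Agent.Helper88.SE.sph_coord_main (fun x => h (R x))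
    (hh.comp R.continuous.measurable)
  refine Eq.trans h2 ?_
  apply lintegral_congr
  intro θ
  apply lintegral_congr
  intro ϕ
  congr 2
  rw [hR]
  refine Eq.trans (b.sum_repr_symm _).symm ?_
  rw [Fin.sum_univ_three]
  simp [Pool.Agent.Helper88.SE.sph_coord_sph]

theorem lint_eq {a b : ℝ} (hab : a ≤ b) {f : ℝ → ℝ} (hf : ContinuousOn f (Icc a b))
    (h0 : ∀ x ∈ Ioo a b, 0 ≤ f x) :
    ∫⁻ x in Ioo a b, ENNReal.ofReal (f x) = ENNReal.ofReal (∫ x in a..b, f x) := by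
  rw [intervalIntegral.integral_of_le hab, integral_Ioc_eq_integral_Ioo,
    ofReal_integral_eq_lintegral_ofReal]
  · exact (hf.integrableOn_Icc).mono_set Ioo_subset_Icc_self
  · rw [EventuallyLE, ae_restrict_iff' measurableSet_Ioo]
    exact Eventually.of_forall h0

theorem phi_int (a0 a1 a2 p q : ℝ) :
    ∫ ϕ in (-Real.pi)..Real.pi, (a0 + a1 * (p * Real.cos ϕ + q * Real.sin ϕ) +
      a2 * (p * Real.cos ϕ + q * Real.sin ϕ) ^ 2) =
      2 * Real.pi * a0 + Real.pi * a2 * (p ^ 2 + q ^ 2) := by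
  have h1 : ∀ ϕ ∈ uIcc (-Real.pi) Real.pi, HasDerivAt (fun ϕ : ℝ => a0 * ϕ +
      a1 * (p * Real.sin ϕ - q * Real.cos ϕ) +
      a2 * (p ^ 2 * ((ϕ + Real.sin ϕ * Real.cos ϕ) / 2) + p * q * Real.sin ϕ ^ 2 +
        q ^ 2 * ((ϕ - Real.sin ϕ * Real.cos ϕ) / 2)))
      (a0 + a1 * (p * Real.cos ϕ + q * Real.sin ϕ) +
      a2 * (p * Real.cos ϕ + q * Real.sin ϕ) ^ 2) ϕ := by
    intro ϕ _
    have hs := Real.hasDerivAt_sin ϕ
    have hc := Real.hasDerivAt_cos ϕ
    have hi := hasDerivAt_id' ϕ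
    have h := (((hi.const_mul a0).add (((hs.const_mul p).sub (hc.const_mul q)).const_mul a1)).add
      (((((hi.add (hs.mul hc)).div_const 2).const_mul (p ^ 2)).add
        ((hs.pow 2).const_mul (p * q))).add
        (((hi.sub (hs.mul hc)).div_const 2).const_mul (q ^ 2)) |>.const_mul a2))
    refine (h.congr_deriv ?_)
    have := Real.sin_sq_add_cos_sq ϕ
    simp only [Nat.cast_ofNat, Nat.add_one_sub_one, pow_one]
    linear_combination a2 * (p ^ 2 / 2 + q ^ 2 / 2) * (- this)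
  rw [intervalIntegral.integral_eq_sub_of_hasDerivAt h1 (Continuous.intervalIntegrable (by fun_prop) _ _)]
  simp
  ring

theorem N1_nonneg (e u V : E 3) : 0 ≤ N1 e u V := by
  unfold N1
  apply div_nonneg _ (sq_nonneg _)
  rw [sub_nonneg]
  apply Real.le_sqrt_of_sq_le
  have := sq_nonneg ((inner ℝ e u : ℝ) * ‖tg u V‖)
  nlinarith

theorem N1_form {e v u : E 3} (he : ‖e‖ = 1) (hv : ‖v‖ = 1) (hu : ‖u‖ = 1) (α β : ℝ) :
    N1 e u (α • e + β • v) =
      (√((inner ℝ e u : ℝ) ^ 2 * (α ^ 2 + β ^ 2 + 2 * α * β * (inner ℝ e v : ℝ) -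
        (α * (inner ℝ e u : ℝ) + β * (inner ℝ v u : ℝ)) ^ 2) +
        (α + β * (inner ℝ e v : ℝ) - (inner ℝ e u : ℝ) *
          (α * (inner ℝ e u : ℝ) + β * (inner ℝ v u : ℝ))) ^ 2) -
        (α + β * (inner ℝ e v : ℝ) - (inner ℝ e u : ℝ) *
          (α * (inner ℝ e u : ℝ) + β * (inner ℝ v u : ℝ)))) / (inner ℝ e u : ℝ) ^ 2 := by
  have h1 : (inner ℝ u (α • e + β • v) : ℝ) = α * (inner ℝ e u : ℝ) + β * (inner ℝ v u : ℝ) := by
    rw [inner_add_right, real_inner_smul_right, real_inner_smul_right, real_inner_comm u e,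
      real_inner_comm u v]
  have h2 : (inner ℝ e (tg u (α • e + β • v)) : ℝ) = α + β * (inner ℝ e v : ℝ) -
      (inner ℝ e u : ℝ) * (α * (inner ℝ e u : ℝ) + β * (inner ℝ v u : ℝ)) := by
    unfold tg
    rw [inner_sub_right, inner_add_right, real_inner_smul_right, real_inner_smul_right,
      real_inner_smul_right, real_inner_self_eq_norm_sq, he, h1]
    ring
  have h3 : ‖tg u (α • e + β • v)‖ ^ 2 = α ^ 2 + β ^ 2 + 2 * α * β * (inner ℝ e v : ℝ) -
        (α * (inner ℝ e u : ℝ) + β * (inner ℝ v u : ℝ)) ^ 2 := by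
    unfold tg
    rw [norm_sub_sq_real, real_inner_smul_right, real_inner_comm u (α • e + β • v), h1,
      norm_smul, mul_pow, hu, Real.norm_eq_abs, sq_abs, norm_add_sq_real, real_inner_smul_right,
      real_inner_smul_left, norm_smul, norm_smul, mul_pow, mul_pow, he, hv, Real.norm_eq_abs,
      Real.norm_eq_abs, sq_abs, sq_abs]
    ring
  unfold N1
  rw [h2, h3]

theorem fin_of {e : E 3} {V : E 3 → E 3} (hV : Continuous V) {K : ℝ} (hK : 0 ≤ K)
    (h : ∫⁻ u : Sph 3, ENNReal.ofReal (N1 e (u : E 3) (V (u : E 3))) ∂(sig 3) ≤ ENNReal.ofReal K) :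
    Integrable (fun u : Sph 3 => N1 e (u : E 3) (V (u : E 3))) (sig 3) ∧
      ∫ u : Sph 3, N1 e (u : E 3) (V (u : E 3)) ∂(sig 3) ≤ K := by
  have hm : Measurable (fun u : Sph 3 => N1 e (u : E 3) (V (u : E 3))) := by
    unfold N1 tg
    apply Measurable.div
    · apply Continuous.measurable
      fun_prop
    · apply Continuous.measurable
      fun_prop
  have h0 : 0 ≤ᵐ[sig 3] (fun u : Sph 3 => N1 e (u : E 3) (V (u : E 3))) :=
    Eventually.of_forall (fun u => N1_nonneg _ _ _)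
  have hi : Integrable (fun u : Sph 3 => N1 e (u : E 3) (V (u : E 3))) (sig 3) := by
    refine ⟨hm.aestronglyMeasurable, ?_⟩
    rw [hasFiniteIntegral_iff_ofReal h0]
    exact lt_of_le_of_lt h ENNReal.ofReal_lt_top
  refine ⟨hi, ?_⟩
  rw [← ENNReal.ofReal_le_ofReal_iff hK, ofReal_integral_eq_lintegral_ofReal hi h0]
  exact h

theorem fin_of' {e : E 3} {V : E 3 → E 3} (hV : Continuous V) {f : Sph 3 → ℝ} (hf : Continuous f)
    (h : ∀ u : Sph 3, N1 e (u : E 3) (V (u : E 3)) ≤ f u) :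
    Integrable (fun u : Sph 3 => N1 e (u : E 3) (V (u : E 3))) (sig 3) ∧
      ∫ u : Sph 3, N1 e (u : E 3) (V (u : E 3)) ∂(sig 3) ≤ ∫ u : Sph 3, f u ∂(sig 3) := by
  have h0 : ∀ u, 0 ≤ f u := fun u => (N1_nonneg _ _ _).trans (h u)
  apply fin_of hV (integral_nonneg h0)
  rw [ofReal_integral_eq_lintegral_ofReal (integrable_sig hf) (Eventually.of_forall h0)]
  exact lintegral_mono (fun u => ENNReal.ofReal_le_ofReal (h u))

/-- [FB-L0] -/
theorem s_L0 : S_L0 := by
  intro e v he hv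
  have hV : Continuous (fun u : E 3 => qf v v 0 u • e + qf 0 0 0 u • (0 : E 3)) := by
    unfold qf
    fun_prop
  have h := fin_of' (e := e) hV (f := fun u : Sph 3 => (inner ℝ (u : E 3) v : ℝ) ^ 2 / 2)
    (by fun_prop) ?_
  · refine ⟨h.1, h.2.trans (le_of_eq ?_)⟩
    rw [integral_div, int_sq, hv]
    ring
  · intro u
    have hu := norm_sph u
    have e1 : qf v v 0 (u : E 3) • e + qf 0 0 0 (u : E 3) • (0 : E 3) =
        ((inner ℝ v (u : E 3) : ℝ) ^ 2) • e + (0 : ℝ) • v := by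
      simp only [qf, smul_zero, zero_smul, zero_mul, add_zero]
      congr 1
      ring
    have e2 := N1_form (v := v) he hv hu ((inner ℝ v (u : E 3) : ℝ) ^ 2) 0
    show N1 e (u : E 3) (qf v v 0 (u : E 3) • e + qf 0 0 0 (u : E 3) • (0 : E 3)) ≤ _
    rw [e1, e2, real_inner_comm v (u : E 3)]
    set c : ℝ := inner ℝ e (u : E 3) with hc
    set y : ℝ := inner ℝ v (u : E 3) with hy
    have hc1 : c ^ 2 ≤ 1 := by
      have := abs_real_inner_le_norm e (u : E 3)
      rw [he, hu, ← hc] at this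
      have h2 := abs_le.1 this
      nlinarith
    rcases eq_or_ne c 0 with h0 | h0
    · rw [h0]
      simp
      positivity
    · have hcp : 0 < c ^ 2 := by positivity
      have e3 : c ^ 2 * ((y ^ 2) ^ 2 + 0 ^ 2 + 2 * y ^ 2 * 0 * (inner ℝ e v : ℝ) - (y ^ 2 * c + 0 * y) ^ 2) +
          (y ^ 2 + 0 * (inner ℝ e v : ℝ) - c * (y ^ 2 * c + 0 * y)) ^ 2 =
          (y ^ 2 * √(1 - c ^ 2)) ^ 2 := by
        rw [mul_pow, Real.sq_sqrt (by linarith)]
        ring
      rw [e3, Real.sqrt_sq (by positivity), div_le_iff₀ hcp]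
      have h4 := Real.sq_sqrt (show (0 : ℝ) ≤ 1 - c ^ 2 by linarith)
      set s := √(1 - c ^ 2)
      have h5 : 0 ≤ s := Real.sqrt_nonneg _
      have h6 : c ^ 2 = 1 - s ^ 2 := by linarith
      have h7 : y ^ 2 * s + -(y ^ 2 * (1 - c ^ 2)) ≤ y ^ 2 / 2 * c ^ 2 := by
        rw [h6]
        nlinarith [mul_nonneg (sq_nonneg y) (sq_nonneg (s - 1))]
      linarith

end Pool.Agent.L7h64.FB
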