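import Pool.Agent.H241R3.FV.Stmts2

/-!
# Project FB (helper64): all nonshortcutting fillings of the 2-sphere, orientable or not, have
volume at least `(84/100) vol(S³)/2` (hard anchor MP_aeade1_gt; known: `0.694` for all fillings, `0.82`
for orientable ones). The analogue in dimension 3 of project FA (helper77, d = 1, `0.93`).

`x = r e`, `h = √(1 - r²)`, `τ = r/h`, `Γ = √(1 - x xᵀ)` (so `Γ⁻¹ = Gi e r`), `det Γ = h`,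
`|Γ θ| = DD x θ = √(1 - ⟨x,θ⟩²)` for unit vectors `θ`. The directions `u = Γθ/|Γθ|` at the point of the
hemisphere over `x` are the new variables (`th e r u = θ`), `DD = 1/|Γ⁻¹u|`, `⟨x,θ⟩ = sin (arctan (τ ⟨e,u⟩))`.
`T F x = (1 - |x|²) ∫ (F θ - arcsin ⟨x, θ⟩) DD⁻⁴ θ dθ = h Γ⁻¹ ∫ δ(u) u du`, `δ = dl F e r`.
`- DT = h Γ⁻¹ B Γ⁻¹` with the bilinear form `B = BB F e r`, whose symmetric part is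
`∫ (1 - τ ∂_e δ) ⟨u,v⟩² du`. By duality (vector fields with quadratic coefficients, `S_DIV`) its
eigenvalues are in `(4π/3) [1 - 0.398 λ, 1 + 0.5 λ]`, `λ = 2r/(1+r)`, up to `O(|T|)`, and its trace is
`4π + O(|T|)`; hence `det B ≥ (4π/3)³ (1 - 0.398 λ)(1 - 0.102 λ)(1 + 0.5 λ) - O(|T|)`.
The Jacobian of `q ↦ T (F_q) x` is at most `(4π/3)³ (1 - |x|²)`, the Jacobian of `x ↦ T F x` is
`h det B`. Counting the pairs `(q, x)` with `|T| < ε` in two ways (as in FA) gives the theorem.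
-/

set_option autoImplicit false
set_option linter.unusedVariables false

open MeasureTheory Metric Set Filter Topology InnerProductGeometry

namespace Pool.Agent.L7h64.FB

open Pool.Agent.H241R3.FV (E Sph sig ext gnorm act mat RChart Fill)

/-- 1-Lipschitz functions on the sphere -/
def Lip1 (F : Sph 3 → ℝ) : Prop :=
  ∀ θ θ' : Sph 3, |F θ - F θ'| ≤ angle (θ : E 3) (θ' : E 3)

/-- `√(1 - ⟨x, θ⟩²)` -/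
noncomputable def DD (x θ : E 3) : ℝ := √(1 - (inner ℝ x θ : ℝ) ^ 2)

/-- the vector `T` -/
noncomputable def T (F : Sph 3 → ℝ) (x : E 3) : E 3 :=
  (1 - ‖x‖ ^ 2) • ∫ θ : Sph 3, ((F θ - Real.arcsin (inner ℝ x (θ : E 3))) / DD x (θ : E 3) ^ 4) •
    (θ : E 3) ∂(sig 3)

/-- the functions of the points of `M` -/
noncomputable def FF {M : Type} [MetricSpace M] (bd : Sph 3 → M) (q : M) (θ : Sph 3) : ℝ :=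
  Real.pi / 2 - ext bd θ q

/-- boundary points are not closer in `M` -/
def NS {M : Type} [MetricSpace M] (bd : Sph 3 → M) : Prop :=
  ∀ x y : Sph 3, angle (x : E 3) (y : E 3) ≤ dist (bd x) (bd y)

/-! ### the side of `M` (copy of FA with `E 3`) -/

/-- [FB-FF] elementary facts (copy of `FA.s_FF`, from `taskExt 3`) -/
def S_FF : Prop := ∀ (M : Type) [MetricSpace M] (bd : Sph 3 → M), NS bd →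
  (∀ q, Lip1 (FF bd q)) ∧ (∀ q q' θ, |FF bd q θ - FF bd q' θ| ≤ dist q q') ∧
  (∀ p θ : Sph 3, FF bd (bd p) θ = Real.arcsin (inner ℝ (p : E 3) (θ : E 3)))

/-- [FB-BD] boundary values: `(arcsin a - arcsin b) (a - b) ≥ (a - b)²`, `DD ≤ 1`,
`∫ ⟨w,θ⟩² dθ = (4π/3) |w|²`. -/
def S_BD : Prop := ∀ (M : Type) [MetricSpace M] (bd : Sph 3 → M), NS bd → ∀ (x : E 3), ‖x‖ < 1 →
  ∀ p : Sph 3, 4 * Real.pi / 3 * (1 - ‖x‖ ^ 2) * ‖(p : E 3) - x‖ ^ 2 ≤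
    inner ℝ (T (FF bd (bd p)) x) ((p : E 3) - x)

/-- [FB-LQ] Lipschitz constant in `F` (`DD² ≥ 1 - |x|²`) -/
def S_LQ : Prop := ∀ (x : E 3), ‖x‖ < 1 → ∀ (F F' : Sph 3 → ℝ) (δ : ℝ), Lip1 F → Lip1 F' →
  (∀ θ, |F θ - F' θ| ≤ δ) → ‖T F x - T F' x‖ ≤ 4 * Real.pi / (1 - ‖x‖ ^ 2) * δ

/-- [FB-CQ] joint continuity (copy of `L7h22.FA.s_CQ`) -/
def S_CQ : Prop := ∀ (M : Type) [MetricSpace M] (bd : Sph 3 → M), NS bd →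
  ContinuousOn (fun z : E 3 × M => T (FF bd z.2) z.1) {z | ‖z.1‖ < 1}

/-- [FB-DQ] derivative in a chart and Jacobian (copy of `FA.s_DQ`): `|det (Γ L)| ≤ ((1/3) ∫ W |Γθ|)³`
with `W = (1 - |x|²) DD⁻⁴`, and `∫ DD⁻³ dθ = 4π/h` (`S_CH` with `G = DD⁻³`, or directly), so
`|det L| ≤ ((h²/3) (4π/h))³ / h = (4π/3)³ h²`. -/
def S_DQ : Prop := ∀ (M : Type) [MetricSpace M] (bd : Sph 3 → M), NS bd → ∀ C : RChart 3 M,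
  ∀ᵐ p ∂(volume : Measure (E 3)), p ∈ C.U → ∀ x : E 3, ‖x‖ < 1 → ∃ L : E 3 →L[ℝ] E 3,
    HasFDerivAt (fun p' => T (FF bd (C.map p')) x) L p ∧
    |L.det| ≤ (4 * Real.pi / 3) ^ 3 * (1 - ‖x‖ ^ 2) * √(C.G p).det

/-! ### the directions at the point over `x = r e` -/

/-- `Γ⁻¹ z` -/
noncomputable def Gi (e : E 3) (r : ℝ) (z : E 3) : E 3 :=
  z + ((1 / √(1 - r ^ 2) - 1) * (inner ℝ e z : ℝ)) • e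

open Classical in
/-- `v / |v|` as a point of the sphere -/
noncomputable def pt (v : E 3) : Sph 3 :=
  if h : v ≠ 0 then ⟨‖v‖⁻¹ • v, by simp [norm_smul, h]⟩ else ⟨EuclideanSpace.single 0 1, by simp⟩

/-- the function `δ(z) = F(Γ⁻¹z/|Γ⁻¹z|) - arctan (τ ⟨e,z⟩/|z|)`, homogeneous of degree 0 -/
noncomputable def dl (F : Sph 3 → ℝ) (e : E 3) (r : ℝ) (z : E 3) : ℝ :=
  F (pt (Gi e r z)) - Real.arctan (r / √(1 - r ^ 2) * ((inner ℝ e z : ℝ) / ‖z‖))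

/-- the moments of first order -/
noncomputable def am (F : Sph 3 → ℝ) (e : E 3) (r : ℝ) (w : E 3) : ℝ :=
  ∫ u : Sph 3, dl F e r (u : E 3) * (inner ℝ (u : E 3) w : ℝ) ∂(sig 3)

/-- the bilinear form `B(v, w) = ∫ (1 - 4 τ ⟨e,u⟩ δ) ⟨u,v⟩ ⟨u,w⟩ du + 2 τ ⟨e,v⟩ ∫ δ ⟨u,w⟩ du` -/
noncomputable def BB (F : Sph 3 → ℝ) (e : E 3) (r : ℝ) (v w : E 3) : ℝ :=
  (∫ u : Sph 3, (1 - 4 * (r / √(1 - r ^ 2)) * (inner ℝ e (u : E 3) : ℝ) * dl F e r (u : E 3)) *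
    (inner ℝ (u : E 3) v : ℝ) * (inner ℝ (u : E 3) w : ℝ) ∂(sig 3)) +
  2 * (r / √(1 - r ^ 2)) * (inner ℝ e v : ℝ) * am F e r w

/-- [FB-CH] change of variables `θ = Γ⁻¹u/|Γ⁻¹u|` on the sphere: for `f(z) = G(z/|z|) 1_{|z|<1}` on
`ℝ³`, `(1/3) ∫ G dθ = ∫ f(z) dz = det Γ⁻¹ ∫ G(Γ⁻¹ζ/|Γ⁻¹ζ|) 1_{|Γ⁻¹ζ|<1} dζ
= (1/h) (1/3) ∫ G(th u) |Γ⁻¹u|⁻³ du` (polar coordinates, `Measure.toSphere`). -/
def S_CH : Prop := ∀ (e : E 3), ‖e‖ = 1 → ∀ r : ℝ, 0 ≤ r → r < 1 → ∀ G : Sph 3 → ℝ, Continuous G →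
  ∫ θ : Sph 3, G θ ∂(sig 3) =
    ∫ u : Sph 3, G (pt (Gi e r (u : E 3))) / (√(1 - r ^ 2) * ‖Gi e r (u : E 3)‖ ^ 3) ∂(sig 3)

/-- [FB-FR] `T` and its derivative in the new variables. Differentiate under the integral:
`⟨DT(x) v, w⟩ = - h² ∫ (DD⁻⁵ - 4 δ ⟨x,θ⟩ DD⁻⁶) ⟨v,θ⟩⟨w,θ⟩ dθ - 2 ⟨x,v⟩ ∫ δ DD⁻⁴ ⟨w,θ⟩ dθ`,
`δ = F θ - arcsin ⟨x,θ⟩`, then `S_CH` with `θ/DD = Γ⁻¹u`, `DD = 1/|Γ⁻¹u|`, `⟨x,θ⟩/DD = τ ⟨e,u⟩`,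
`⟨Γ⁻¹u, v⟩ = ⟨u, Γ⁻¹v⟩`, `⟨x,v⟩ = r h ⟨e, Γ⁻¹v⟩`. -/
def S_FR : Prop := ∀ (e : E 3), ‖e‖ = 1 → ∀ r : ℝ, 0 ≤ r → r < 1 → ∀ F : Sph 3 → ℝ, Lip1 F →
  (∀ w : E 3, (inner ℝ (T F (r • e)) w : ℝ) = √(1 - r ^ 2) * am F e r (Gi e r w)) ∧
  ∃ L : E 3 →L[ℝ] E 3, HasFDerivAt (T F) L (r • e) ∧ ∀ v w : E 3,
    (inner ℝ (L v) w : ℝ) = -(√(1 - r ^ 2) * BB F e r (Gi e r v) (Gi e r w))

/-! ### duality -/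

/-- the component of `V` orthogonal to the unit vector `u` -/
noncomputable def tg (u V : E 3) : E 3 := V - (inner ℝ u V : ℝ) • u

/-- the norm dual to `|p| + ⟨e,p⟩ ≤ 1` (`p ⊥ u`): with `W = tg u V`, `c = ⟨e,u⟩`,
`(√(c²|W|² + ⟨e,W⟩²) - ⟨e,W⟩) / c²` -/
noncomputable def N1 (e u V : E 3) : ℝ :=
  (√((inner ℝ e u : ℝ) ^ 2 * ‖tg u V‖ ^ 2 + (inner ℝ e (tg u V) : ℝ) ^ 2) -
    (inner ℝ e (tg u V) : ℝ)) / (inner ℝ e u : ℝ) ^ 2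

/-- quadratic functions `⟨a,z⟩⟨b,z⟩ + κ|z|²` -/
noncomputable def qf (a b : E 3) (κ : ℝ) (z : E 3) : ℝ :=
  (inner ℝ a z : ℝ) * (inner ℝ b z : ℝ) + κ * ‖z‖ ^ 2

/-- their derivative in the direction `c` -/
noncomputable def dq (a b : E 3) (κ : ℝ) (c z : E 3) : ℝ :=
  (inner ℝ a c : ℝ) * (inner ℝ b z : ℝ) + (inner ℝ a z : ℝ) * (inner ℝ b c : ℝ) +
    2 * κ * (inner ℝ z c : ℝ)

/-- [FB-DIV] duality: for the field `V(z) = q₁(z) c₁ + q₂(z) c₂`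
`τ ∫ δ (4 ⟨u,V⟩ - div V) du ≤ λ ∫ N1(u, V(u)) du`, `τ = r/h`, `λ = 2r/(1+r)`.
Proof. (1) `δ` is locally Lipschitz on `ℝ³ \ 0` and homogeneous of degree 0. Take a `C¹` function
`k ≥ 0` on `ℝ` with support in `[1, 2]`, not 0, e.g. `k(ρ) = ((ρ-1)(2-ρ))²` there. Multiply `δ` with a
Lipschitz cutoff which is 1 on `1 ≤ |z| ≤ 2`; `LipschitzWith.integral_lineDeriv_mul_eq` with the
compactly supported `C¹` function `qᵢ(z) k(|z|)` in the direction `cᵢ` gives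
`∫ (∂_{cᵢ} δ) qᵢ k dz = - ∫ δ (∂_{cᵢ} qᵢ k + qᵢ k' ⟨z,cᵢ⟩/|z|) dz`; in polar coordinates
(`K = ∫ ρ³ k dρ`, `∫ ρ⁴ k' = -4K`): `K ∫ (∂_{cᵢ}δ)(u) qᵢ(u) du = K ∫ δ(u) (4 qᵢ(u)⟨u,cᵢ⟩ - ∂_{cᵢ}qᵢ(u)) du`
(`∂_c δ` is homogeneous of degree -1). By Rademacher `∂_{c₁}δ q₁ + ∂_{c₂}δ q₂ = Dδ(u) V(u)` a.e.
(2) At a point `u` of differentiability, `|u| = 1`, `W = tg u V`, `E = ⟨e,W⟩`, `c = ⟨e,u⟩ ≠ 0`: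
`Dδ(u) V = Dδ(u) W ≤ |Γ⁻¹u ∧ Γ⁻¹W| / |Γ⁻¹u|² - τ E/(1 + τ²c²)` (`F` is 1-Lipschitz for the angle,
`angle(p, p + t q)/t → |p ∧ q|/|p|²`, e.g. by `angle ≤ tan angle`), and `|Γ⁻¹u|² = 1 + τ²c²`,
`|Γ⁻¹u ∧ Γ⁻¹W|² = (1 + τ²c²)|W|² + τ²E²`.
(3) Algebra: `τ (√((1+τ²c²)|W|² + τ²E²) - τE)/(1 + τ²c²) ≤ λ (√(c²|W|² + E²) - E)/c²` for
`E² ≤ (1-c²)|W|²`: both sides are `|W|²` over `√((c²+κ)|W|²+E²) + E`, `κ = (1-r²)/r²`, resp.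
`(√(c²|W|²+E²) + E)/λ` (case `|W| = 1`, `A = √(c²+E²) ≤ 1`, `E ≤ A`): `(1-λ)E ≤ (1-λ)A` and
`(2-λ)A ≤ λ √(A²+κ)` since `A ≤ r √(A²+κ)`. `r = 0` is trivial (`τ = λ = 0`). -/
def S_DIV : Prop := ∀ (e : E 3), ‖e‖ = 1 → ∀ r : ℝ, 0 ≤ r → r < 1 → ∀ F : Sph 3 → ℝ, Lip1 F →
  ∀ (a₁ b₁ c₁ a₂ b₂ c₂ : E 3) (κ₁ κ₂ : ℝ),
  Integrable (fun u : Sph 3 => N1 e (u : E 3) (qf a₁ b₁ κ₁ (u : E 3) • c₁ +
    qf a₂ b₂ κ₂ (u : E 3) • c₂)) (sig 3) →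
  r / √(1 - r ^ 2) * ∫ u : Sph 3, dl F e r (u : E 3) *
      (4 * (qf a₁ b₁ κ₁ (u : E 3) * (inner ℝ (u : E 3) c₁ : ℝ) +
        qf a₂ b₂ κ₂ (u : E 3) * (inner ℝ (u : E 3) c₂ : ℝ)) -
        (dq a₁ b₁ κ₁ c₁ (u : E 3) + dq a₂ b₂ κ₂ c₂ (u : E 3))) ∂(sig 3) ≤
    2 * r / (1 + r) * ∫ u : Sph 3, N1 e (u : E 3) (qf a₁ b₁ κ₁ (u : E 3) • c₁ +
      qf a₂ b₂ κ₂ (u : E 3) • c₂) ∂(sig 3)

/-! ### three explicit fields -/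

/-- the part `α ∈ (0, π-χ)` of a great circle through `v` -/
noncomputable def WW (χ : ℝ) : ℝ :=
  (∫ β in χ..(Real.pi + χ) / 2, Real.sin (2 * β - χ) * Real.sin (β - χ) ^ 2 / (1 + Real.cos β)) -
  ∫ β in (Real.pi + χ) / 2..Real.pi, Real.sin (2 * β - χ) * Real.sin (β - χ) ^ 2 / (1 - Real.cos β)

/-- [FB-W] `WW χ + WW (π - χ) = 2/3` for `0 < χ < π`. With `β → π - β` in `WW (π - χ)`:
`WW χ + WW(π-χ) = [K₊]_χ^{(π+χ)/2} - [K₋]_{(π+χ)/2}^π + [K₋]_{χ/2}^χ - [K₊]_0^{χ/2}` with the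
primitives of `sin(2β-χ) sin²(β-χ)/(1 ± cos β)` (`a = cos χ`, `b = sin χ`, `q = cos 3χ`, `B = 4b²a`,
`m = 2b²-6a²`, `C = cos β`, `S = sin β`)
`K₊ = (2/3)qC³ - qC² - BC + B log(1+C) - b (m (S - S³/3 - (β+SC)/2) + S - β + b²S/(1+C))`,
`K₋ = -(2/3)qC³ - qC² + BC + B log(1-C) - b (-m (S - S³/3 + (β+SC)/2) - S - β - b²S/(1-C))`;
the logarithms cancel: `(1+C)(1-C) = S²` at `(π+χ)/2` and `χ/2`, `S = cos (χ/2)`, `sin (χ/2)`.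
(checked numerically) -/
def S_W : Prop := ∀ χ : ℝ, 0 < χ → χ < Real.pi → WW χ + WW (Real.pi - χ) = 2 / 3

/-- [FB-U] the field `V = -(⟨e,u⟩⟨v,u⟩ - ⟨e,v⟩/2) v`, `γ = ⟨e,v⟩`, `c = ⟨e,u⟩`, `m = 2c⟨u,v⟩ - γ`:
`tg u v = v - ⟨u,v⟩u`, `c²|tg u v|² + ⟨e,tg u v⟩² = c² - γ m =: X²`, `⟨e,tg u v⟩ = (γ-m)/2`,
`N1 = |m|/2 (X - sgn(m)(m-γ)/2)/c² ≤ 1` (for `γ m ≤ c²` always, as `X² - (m-γ)²/4 = c²(1-⟨u,v⟩²)`).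
In polar coordinates about `v`: `u = cos α v + sin α ζ`, `ζ ⊥ v` unit, `du = sin α dα dζ`; with
`c(α) = γ cos α + ⟨e,ζ⟩ sin α = κ sin(α+χ)`, `κ = √(γ²+⟨e,ζ⟩²)`, `κ sin χ = γ`, `κ cos χ = ⟨e,ζ⟩` (let
`γ > 0`): `m = κ sin(2α+χ)`, `X = κ sin α`, `N1 = |sin(2α+χ)| sin α / (2 (1 + ς cos(α+χ)))`,
`ς = sgn m`, so `∫_0^{π-χ} N1 sin α dα = WW χ / 2` (`β = α+χ`). `N1` is even in `u`; the half sphere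
`c > 0` is `{α < π - χ(ζ)}`, and `χ(-ζ) = π - χ(ζ)`: `∫ N1 du = 2 ∫_ζ WW(χ(ζ))/2 = (1/2) 2π (2/3) = 2π/3`.
`γ < 0`: `v → -v`. `γ = 0`: directly (`N1 = |y|(1-|y|)`, `y = ⟨u,v⟩`, `4π (1/2 - 1/3)`) or by
continuity in `v` (`0 ≤ N1 ≤ 1`). -/
def S_U : Prop := ∀ (e v : E 3), ‖e‖ = 1 → ‖v‖ = 1 →
  Integrable (fun u : Sph 3 => N1 e (u : E 3) (qf (-e) v ((inner ℝ e v : ℝ) / 2) (u : E 3) • v +
    qf 0 0 0 (u : E 3) • (0 : E 3))) (sig 3) ∧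
  ∫ u : Sph 3, N1 e (u : E 3) (qf (-e) v ((inner ℝ e v : ℝ) / 2) (u : E 3) • v +
    qf 0 0 0 (u : E 3) • (0 : E 3)) ∂(sig 3) ≤ 2 * Real.pi / 3

/-- [FB-L] the field `V = σ⟨v,u⟩² e + (1-σ)⟨e,u⟩⟨v,u⟩ v = ⟨v,u⟩ V'`, `σ = 0.83`. With `s = √(1-c²)`,
`c = ⟨e,u⟩`, `W' = tg u V'`, `θ = σ s`: `|⟨v,u⟩| √(c²|W'|²+⟨e,W'⟩²) ≤ (θ⟨v,u⟩² + (c²|W'|²+⟨e,W'⟩²)/θ)/2`.
Coordinates `u = c e + s (cos ω f₁ + sin ω f₂)`, `v = γ e + γ' f₁`, `du = dc dω`, `⟨v,u⟩ = γ c + γ' s cos ω`,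
`W'` has the components `-σ s⟨v,u⟩ + (1-σ) c (γ' c cos ω - γ s)` along `∂_φ` (`⟨e,∂_φ⟩ = -s`) and
`-(1-σ) c γ' sin ω`. The mean over `ω` of the bound for `N1` is `γ² I_e(c) + γ'² I_w(c)`,
`I_e = s(σ + 1/σ)/2 - s²`,
`I_w = (σ s³/4 + ((c²-σ)² + (1-σ)²c⁴)/(4σs) + s²(c²-σ)/2)/c²`;
`3 ∫_0^1 I_e dc = 3((σ+1/σ)π/8 - 2/3) = 0.3972..`,
`3 ∫_0^1 I_w dc = 3(σ(2-π/2)/4 - σπ/16 - π/4 + (1+(1-σ)²)π/(16σ) + (1+σ)/2 - 1/6) = 0.3973..`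
(`∫_0^1 (1-s)²/(s c²) dc = ∫_0^{π/2} (1-sin)/(1+sin) = 2 - π/2`). -/
def S_L : Prop := ∀ (e v : E 3), ‖e‖ = 1 → ‖v‖ = 1 →
  Integrable (fun u : Sph 3 => N1 e (u : E 3) (qf ((83 / 100 : ℝ) • v) v 0 (u : E 3) • e +
    qf ((17 / 100 : ℝ) • e) v 0 (u : E 3) • v)) (sig 3) ∧
  ∫ u : Sph 3, N1 e (u : E 3) (qf ((83 / 100 : ℝ) • v) v 0 (u : E 3) • e +
    qf ((17 / 100 : ℝ) • e) v 0 (u : E 3) • v) ∂(sig 3) ≤ 4 * Real.pi / 3 * (199 / 500)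

/-- [FB-L0] the field `V = ⟨v,u⟩² e`: `N1 = ⟨v,u⟩² s/(1+s) ≤ ⟨v,u⟩²/2`. -/
def S_L0 : Prop := ∀ (e v : E 3), ‖e‖ = 1 → ‖v‖ = 1 →
  Integrable (fun u : Sph 3 => N1 e (u : E 3) (qf v v 0 (u : E 3) • e +
    qf 0 0 0 (u : E 3) • (0 : E 3))) (sig 3) ∧
  ∫ u : Sph 3, N1 e (u : E 3) (qf v v 0 (u : E 3) • e +
    qf 0 0 0 (u : E 3) • (0 : E 3)) ∂(sig 3) ≤ 2 * Real.pi / 3

/-! ### the Jacobian of `x ↦ T F x` -/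

/-- [FB-QF] the form `B` (from `S_DIV`, `S_U`, `S_L`, `S_L0`; `∫ ⟨u,v⟩² = 4π/3`; `γ = ⟨e,v⟩`,
`a_w = am w`). `B(v,v) = 4π/3 - 4τ∫δ c⟨u,v⟩² + 2τγ a_v`.
`S_U`: `4⟨u,V⟩ - div V = -4c⟨u,v⟩² + 2γ⟨u,v⟩ + c`; `S_L`: `4c⟨u,v⟩² - (1+σ)γ⟨u,v⟩ - (1-σ)c`;
`S_L0`: `4c⟨u,v⟩² - 2γ⟨u,v⟩`. -/
def S_QF : Prop := ∀ (e : E 3), ‖e‖ = 1 → ∀ r : ℝ, 0 ≤ r → r < 1 → ∀ F : Sph 3 → ℝ, Lip1 F →
  (∀ v : E 3, ‖v‖ = 1 →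
    BB F e r v v ≤ 4 * Real.pi / 3 * (1 + 1 / 2 * (2 * r / (1 + r))) -
      r / √(1 - r ^ 2) * am F e r e ∧
    4 * Real.pi / 3 * (1 - 199 / 500 * (2 * r / (1 + r))) + r / √(1 - r ^ 2) * (17 / 100) *
      ((inner ℝ e v : ℝ) * am F e r v - am F e r e) ≤ BB F e r v v ∧
    2 * Real.pi / 3 ≤ BB F e r v v) ∧
  (∀ v w : E 3, BB F e r v w - BB F e r w v =
    2 * (r / √(1 - r ^ 2)) * ((inner ℝ e v : ℝ) * am F e r w - (inner ℝ e w : ℝ) * am F e r v)) ∧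
  (∀ b : OrthonormalBasis (Fin 3) ℝ (E 3), ∑ i, BB F e r (b i) (b i) =
    4 * Real.pi - 2 * (r / √(1 - r ^ 2)) * am F e r e)

/-- [FB-LA] linear algebra: `L` with symmetric part between `l` and `k`, trace `t`. The symmetric
part `S` has eigenvalues in `[l, k]` with sum `t`, so their product is at least `l k (t - l - k)`;
`det (S + [a]ₓ) = det S + ⟨a, S a⟩` for the antisymmetric part. -/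
def S_LA : Prop := ∀ (L : E 3 →L[ℝ] E 3) (l k : ℝ), 0 < l → l ≤ k →
  (∀ v : E 3, ‖v‖ = 1 → l ≤ inner ℝ (L v) v ∧ inner ℝ (L v) v ≤ k) →
  l * k * ((∑ i : Fin 3, (inner ℝ (L (EuclideanSpace.single i 1)) (EuclideanSpace.single i 1) : ℝ)) -
    l - k) ≤ L.det

/-- the lower bound of the Jacobian -/
noncomputable def psi (r : ℝ) : ℝ :=
  (1 - 199 / 500 * (2 * r / (1 + r))) * (1 - 51 / 500 * (2 * r / (1 + r))) *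
    (1 + 1 / 2 * (2 * r / (1 + r)))

/-- [FB-DET] lower bound for the Jacobian and injectivity, from `S_FR`, `S_QF`, `S_LA`:
`- DT = h Γ⁻¹ B Γ⁻¹`, `det Γ⁻¹ = 1/h`, so `|det DT| = h det B`; `|am w| ≤ |T| |w| / h` by `S_FR`.
Injectivity: `⟨- DT v, v⟩ ≥ h (2π/3) |Γ⁻¹v|² > 0` on the (convex) ball (copy of `L7h73.FA.T_inj`). -/
def S_DET : Prop := ∀ r0 : ℝ, 0 < r0 → r0 < 1 → ∃ C : ℝ, 0 ≤ C ∧ ∀ F : Sph 3 → ℝ, Lip1 F →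
  (∀ x : E 3, ‖x‖ ≤ r0 → ∃ L : E 3 →L[ℝ] E 3, HasFDerivAt (T F) L x ∧
    (4 * Real.pi / 3) ^ 3 * √(1 - ‖x‖ ^ 2) * psi ‖x‖ - C * ‖T F x‖ ≤ |L.det|) ∧
  (∀ x y : E 3, ‖x‖ < 1 → ‖y‖ < 1 → T F x = T F y → x = y)

/-- [FB-XS] the count for one function (copy of `L7h22.FA.s_XS`; from `S_DET`) -/
def S_XS : Prop := ∀ r0 δ : ℝ, 0 < r0 → r0 < 1 → 0 < δ → ∃ ε0 : ℝ, 0 < ε0 ∧
  ∀ ε : ℝ, 0 < ε → ε ≤ ε0 → ∀ F : Sph 3 → ℝ, Lip1 F →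
    ∫⁻ x in closedBall (0 : E 3) r0 ∩ {x | ‖T F x‖ < ε},
      ENNReal.ofReal ((4 * Real.pi / 3) ^ 3 * √(1 - ‖x‖ ^ 2) * psi ‖x‖) ≤
      ENNReal.ofReal (1 + δ) * volume (ball (0 : E 3) ε)

/-- [FB-RAD] the radial integral `4π ∫_0^1 psi(r) r²/√(1-r²) dr = 0.84050.. π²`: with
`λ = 2 - 2/(1+r)`, `psi = 1 - 0.209404 λ² + 0.020298 λ³`, primitives of `r²/(√(1-r²)(1+r)^k)`,
`k = 0, …, 3` (`r = cos t`, or `c = √(1-r²)`, `c/(1+r)` as in FA). -/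
def S_RAD : Prop := ∃ r0 : ℝ, 0 < r0 ∧ r0 < 1 ∧ ENNReal.ofReal (Real.pi ^ 2 * (8402 / 10000)) ≤
    ∫⁻ x in closedBall (0 : E 3) r0, ENNReal.ofReal (psi ‖x‖ / √(1 - ‖x‖ ^ 2))

/-- [FB-MAIN] (copy of `FA.MN.main_of`; `S_CV` is `Pool.Agent.L7h22.FA.s_CV` with `d = 2`) -/
def S_MAIN : Prop := ∀ (M : Type) [MetricSpace M] [CompactSpace M] (S : Fill 2 M), S.NonShort →
  (S.Triangulated ∨ S.NoRetraction) →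
  ENNReal.ofReal (84 / 100) * ((volume : Measure (E 4)).toSphere univ / 2) ≤ S.vol

end Pool.Agent.L7h64.FB
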